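import Mathlib
import Pool.Agent.Helper2K9.Cub.Maps
import Pool.Agent.Helper2K9.Cub.Sect

/-!
# Every smooth cubic hypersurface: odd cubic parametrizations force rationality; cubic fourfolds

The starting file `CubicMapsEvenDegree` treats very general cubic hypersurfaces. Here `X = (F = 0)` is
ANY smooth cubic hypersurface of dimension `n ≥ 3`.

(A) If there is a dominant rational map of odd degree to `X` given by polynomials of degree at most
three in `n` variables, then `X` is rational; more precisely `X` contains a linear subspace `W` with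
`1 ≤ dim W ≤ n / 2` such that the projection from `W` has a rational section.

(B) The same holds if there is a family of conics on `X`, of odd degree over `X`, whose members all
meet a fixed linear subspace of `X`; then `W` can be chosen so that it contains this subspace.

(C) If a smooth cubic FOURFOLD is dominated by an affine space of any dimension through polynomials of
degree at most three, then it contains a plane and is rational. So no smooth cubic fourfold without
planes (a nonempty Zariski open set of cubic fourfolds, given by an explicit geometric condition) is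
dominated by a projective space of any dimension through forms of degree at most three. The members of
a family of conics as in (B) on a smooth cubic fourfold meet a plane of the fourfold.

Proof: the conics through a base point, the parity arguments of the starting files (projects E3, LI,
T2: theorem of Springer, fundamental identity) which do not need that `X` is very general, the
irreducibility of the projection from a point, the anisotropy of the conic bundle of a line which is
contained in no plane, and the class bound (project PD), which for `n = 4` forces degree one.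
-/

set_option autoImplicit false

namespace Pool.Agent.Results.MP_2619d0_ag.EverySmoothCubic

open MvPolynomial

/-- `F` is the equation of a smooth cubic hypersurface of dimension `n`: a cubic form in `n + 2`
variables whose partial derivatives have no common zero besides the origin -/
def SmoothCubic {n : ℕ} (F : MvPolynomial (Fin (n + 2)) ℂ) : Prop :=
  F.IsHomogeneous 3 ∧ ∀ z : Fin (n + 2) → ℂ, (∀ i, eval z (pderiv i F) = 0) → z = 0

/-- The tuple `G` of polynomials in `N` variables gives a dominant rational map to the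
hypersurface `F = 0`: `F` vanishes at `G`, and every form vanishing at `G` is divisible by `F`. -/
def Dominant {n N : ℕ} (F : MvPolynomial (Fin (n + 2)) ℂ)
    (G : Fin (n + 2) → MvPolynomial (Fin N) ℂ) : Prop :=
  aeval G F = 0 ∧ ∀ (e : ℕ) (H : MvPolynomial (Fin (n + 2)) ℂ), H.IsHomogeneous e →
    aeval G H = 0 → F ∣ H

/-- the degree of the map given by `G`: the degree of the field of rational functions
`ℂ(t_1, …, t_n)` over its subfield generated over `ℂ` by all ratios `G i / G j` -/
noncomputable def mapDegree {n : ℕ} (G : Fin (n + 2) → MvPolynomial (Fin n) ℂ) : ℕ :=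
  Module.finrank (IntermediateField.adjoin ℂ {z : FractionRing (MvPolynomial (Fin n) ℂ) |
    ∃ i j, z = algebraMap (MvPolynomial (Fin n) ℂ) (FractionRing (MvPolynomial (Fin n) ℂ)) (G i) /
      algebraMap (MvPolynomial (Fin n) ℂ) (FractionRing (MvPolynomial (Fin n) ℂ)) (G j)})
    (FractionRing (MvPolynomial (Fin n) ℂ))

/-- the hypersurface `F = 0` of dimension `n` is rational: it has a birational parametrization -/
def IsRational {n : ℕ} (F : MvPolynomial (Fin (n + 2)) ℂ) : Prop :=
  ∃ G : Fin (n + 2) → MvPolynomial (Fin n) ℂ, Dominant F G ∧ mapDegree G = 1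

/-- `x` is a generic point of the hypersurface `F = 0` with coordinates in an extension field `M` of
the complex numbers: `F` vanishes at `x`, and every form vanishing at `x` is divisible by `F` -/
def GenericPoint {n : ℕ} {M : Type} [Field M] [Algebra ℂ M] (F : MvPolynomial (Fin (n + 2)) ℂ)
    (x : Fin (n + 2) → M) : Prop :=
  aeval x F = 0 ∧ ∀ (e : ℕ) (H : MvPolynomial (Fin (n + 2)) ℂ), H.IsHomogeneous e →
    aeval x H = 0 → F ∣ H

/-- the field generated by the ratios of the coordinates of `x`; for a generic point of `X` it is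
the function field of `X` -/
noncomputable def functionField {n : ℕ} {M : Type} [Field M] [Algebra ℂ M] (x : Fin (n + 2) → M) :
    IntermediateField ℂ M :=
  IntermediateField.adjoin ℂ {z | ∃ i j, z = x i / x j}

/-- the linear span of the vectors `A 0, …, A (r - 1)` is contained in the hypersurface `F = 0` -/
def SpanInside {n r : ℕ} (F : MvPolynomial (Fin (n + 2)) ℂ) (A : Fin r → Fin (n + 2) → ℂ) : Prop :=
  ∀ a : Fin r → ℂ, eval (fun i => ∑ l, a l * A l i) F = 0

/-- The hypersurface `F = 0` of dimension `n` contains a linear subspace `W`, spanned by linearly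
independent vectors `v_0, …, v_k` with `1 ≤ k ≤ n - k`, which contains the points `A_l`, and the
projection from `W` has a rational section: with a basis `e_0, …, e_m` (`m = n - k`) of a complement
of `W`, the form `F` vanishes at the point `∑ c_j v_j + l (e_0 + y_1 e_1 + … + y_m e_m)`, where the
`c_j` and `l ≠ 0` are polynomials in `y_1, …, y_m`. -/
def SectionFrom {n r : ℕ} (F : MvPolynomial (Fin (n + 2)) ℂ) (A : Fin r → Fin (n + 2) → ℂ) : Prop :=
  ∃ (k m : ℕ) (v : Fin (k + 1) → Fin (n + 2) → ℂ) (e : Fin (m + 1) → Fin (n + 2) → ℂ)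
    (c : Fin (k + 1) → MvPolynomial (Fin m) ℂ) (l : MvPolynomial (Fin m) ℂ),
    k + m = n ∧ 1 ≤ k ∧ k ≤ m ∧ LinearIndependent ℂ (Sum.elim v e) ∧ SpanInside F v ∧
    (∀ s, A s ∈ Submodule.span ℂ (Set.range v)) ∧ l ≠ 0 ∧
    aeval (fun i => ∑ j, c j * C (v j i) +
      l * ∑ j, (Fin.cons 1 X : Fin (m + 1) → MvPolynomial (Fin m) ℂ) j * C (e j i)) F = 0

/-- the fourfold `F = 0` contains a plane which contains the points `A_l` -/
def PlaneThrough {r : ℕ} (F : MvPolynomial (Fin (4 + 2)) ℂ) (A : Fin r → Fin (4 + 2) → ℂ) : Prop :=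
  ∃ v : Fin 3 → Fin (4 + 2) → ℂ, LinearIndependent ℂ v ∧ SpanInside F v ∧
    ∀ s, A s ∈ Submodule.span ℂ (Set.range v)

theorem isRational_of {n : ℕ} {F : MvPolynomial (Fin (n + 2)) ℂ}
    (h : ∃ G : Fin (n + 2) → MvPolynomial (Fin n) ℂ,
      Pool.Agent.R845.E3.Gp F (fun i => algebraMap (MvPolynomial (Fin n) ℂ)
        (Pool.Agent.R845.E3.Rn n) (G i)) ∧
      (Pool.Agent.TH314.PD.ratioField fun i => algebraMap (MvPolynomial (Fin n) ℂ)
        (Pool.Agent.R845.E3.Rn n) (G i)) = ⊤) : IsRational F := by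
  obtain ⟨G, h1, h2⟩ := h
  have h3 : ∀ P : MvPolynomial (Fin (n + 2)) ℂ,
      aeval (fun i => algebraMap (MvPolynomial (Fin n) ℂ) (Pool.Agent.R845.E3.Rn n) (G i)) P =
      algebraMap (MvPolynomial (Fin n) ℂ) (Pool.Agent.R845.E3.Rn n) (aeval G P) := fun P =>
    (comp_aeval_apply (φ := IsScalarTower.toAlgHom ℂ (MvPolynomial (Fin n) ℂ)
      (Pool.Agent.R845.E3.Rn n)) G P).symm
  refine ⟨G, ⟨?_, ?_⟩, ?_⟩
  · apply IsFractionRing.injective (MvPolynomial (Fin n) ℂ) (Pool.Agent.R845.E3.Rn n)
    rw [← h3, h1.1, map_zero]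
  · intro e P hP h0
    exact h1.2 e P hP (by rw [h3, h0, map_zero])
  · change Module.finrank (Pool.Agent.TH314.PD.ratioField fun i =>
      algebraMap (MvPolynomial (Fin n) ℂ) (Pool.Agent.R845.E3.Rn n) (G i))
      (Pool.Agent.R845.E3.Rn n) = 1
    rw [h2]
    exact IntermediateField.finrank_top

/-- maps of odd degree given by cubic polynomials: adapted coordinates -/
theorem maps_iso {n : ℕ} (hn : 3 ≤ n) {F : MvPolynomial (Fin (n + 2)) ℂ} (hF : SmoothCubic F)
    (G : Fin (n + 2) → MvPolynomial (Fin n) ℂ) (hG : ∀ i, (G i).totalDegree ≤ 3)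
    (hdom : Dominant F G) (hodd : Odd (mapDegree G)) :
    ∃ (k m : ℕ) (σ : Fin (k + 1 + (m + 1)) ≃ Fin (n + 2)) (U : Fin (k + 1) → Fin (m + 1) → ℂ),
      Pool.Agent.R845.E3.VanW (Pool.Agent.R845.E3.shear U (rename σ.symm F)) ∧
      Pool.Agent.R845.E3.Iso (Pool.Agent.R845.E3.shear U (rename σ.symm F)) := by
  obtain ⟨H, hH, -, hdh, hHF⟩ := Pool.Agent.Helper2K9.Cub.homog hF.1 G hG hdom.1
  obtain ⟨b, hb, hHb⟩ := Pool.Agent.Helper2K9.Cub.exists_base hn hF.1 hF.2 G hG hdom.1 hdom.2 H hH
    hdh hHF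
  have hgp : Pool.Agent.R845.E3.Gp F (Pool.Agent.R845.E3.dh H) := by
    rw [hdh]
    have h3 : ∀ P : MvPolynomial (Fin (n + 2)) ℂ,
        aeval (fun i => algebraMap (MvPolynomial (Fin n) ℂ) (Pool.Agent.R845.E3.Rn n) (G i)) P =
        algebraMap (MvPolynomial (Fin n) ℂ) (Pool.Agent.R845.E3.Rn n) (aeval G P) := fun P =>
      (comp_aeval_apply (φ := IsScalarTower.toAlgHom ℂ (MvPolynomial (Fin n) ℂ)
        (Pool.Agent.R845.E3.Rn n)) G P).symm
    refine ⟨by rw [h3, hdom.1, map_zero], fun e P hP h0 => hdom.2 e P hP ?_⟩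
    rw [h3] at h0
    exact (IsFractionRing.injective (MvPolynomial (Fin n) ℂ) (Pool.Agent.R845.E3.Rn n))
      (h0.trans (map_zero _).symm)
  obtain ⟨-, k, m, σ, U, -, hW, -, hiso⟩ := Pool.Agent.Helper2K9.Cub.base_iso (by omega) hF.1 hF.2
    H hH hHF hgp (by rw [hdh]; exact hodd) b hb hHb
  exact ⟨k, m, σ, U, hW, hiso⟩

/-- a dominant rational map of odd degree to `F = 0`, given by polynomials of degree at most three
in `n` variables -/
def OddCubicMap {n : ℕ} (F : MvPolynomial (Fin (n + 2)) ℂ) : Prop :=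
  ∃ G : Fin (n + 2) → MvPolynomial (Fin n) ℂ, (∀ i, (G i).totalDegree ≤ 3) ∧ Dominant F G ∧
    Odd (mapDegree G)

/-- a dominant rational map to `F = 0`, given by polynomials of degree at most three in an
arbitrary number `N` of variables -/
def CubicMap {n : ℕ} (F : MvPolynomial (Fin (n + 2)) ℂ) : Prop :=
  ∃ (N : ℕ) (G : Fin (n + 2) → MvPolynomial (Fin N) ℂ), (∀ i, (G i).totalDegree ≤ 3) ∧
    Dominant F G

/-- the point `t² ∑ w_l A_l + t β + γ` of a conic which meets the linear span of `A 0, …, A (r-1)`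
(at `t = ∞`) -/
def conicPoint {n r : ℕ} (A : Fin r → Fin (n + 2) → ℂ) {M : Type} [Field M] [Algebra ℂ M] (t : M)
    (w : Fin r → M) (β γ : Fin (n + 2) → M) : Fin (n + 2) → M :=
  fun i => t ^ 2 * (∑ l, w l * algebraMap ℂ M (A l i)) + t * β i + γ i

/-- There is a family of conics on `F = 0` whose members meet the linear span of the `A l` and
which has odd degree over `F = 0`: a field `M`, a subfield `L` (the functions on the base of the
family), an element `t` transcendental over `L` (a parameter of the conic) and `w`, `β`, `γ` with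
coordinates in `L` such that `t² ∑ w_l A_l + t β + γ` is a generic point of `F = 0` and `M` has odd
degree over the function field. -/
def OddConics {n r : ℕ} (F : MvPolynomial (Fin (n + 2)) ℂ) (A : Fin r → Fin (n + 2) → ℂ) : Prop :=
  ∃ (M : Type) (_ : Field M) (_ : Algebra ℂ M) (L : IntermediateField ℂ M) (t : M)
    (w : Fin r → M) (β γ : Fin (n + 2) → M), Transcendental L t ∧ (∀ l, w l ∈ L) ∧
    (∀ i, β i ∈ L ∧ γ i ∈ L) ∧ GenericPoint F (conicPoint A t w β γ) ∧
    Odd (Module.finrank (functionField (conicPoint A t w β γ)) M)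

theorem conics_coord {n : ℕ} {F : MvPolynomial (Fin (n + 2)) ℂ} (hF : SmoothCubic F) {r : ℕ}
    (A : Fin r → Fin (n + 2) → ℂ) (hA : SpanInside F A) (h : OddConics F A) :
    ∃ (k m : ℕ) (σ : Fin (k + 1 + (m + 1)) ≃ Fin (n + 2)) (U : Fin (k + 1) → Fin (m + 1) → ℂ),
      Pool.Agent.R845.E3.VanW (Pool.Agent.R845.E3.shear U (rename σ.symm F)) ∧
      (∀ j l, A l (σ (Fin.natAdd (k + 1) j)) =
        ∑ i, U i j * A l (σ (Fin.castAdd (m + 1) i))) ∧
      Pool.Agent.R845.E3.Iso (Pool.Agent.R845.E3.shear U (rename σ.symm F)) := by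
  obtain ⟨M, _, _, L, t, w, β, γ, ht, hw, hβγ, hG, hodd⟩ := h
  have hF0 : F ≠ 0 := Pool.Agent.TH314.PD.ne_zero_of_smooth (m := n + 1) hF.2
  obtain ⟨k, m, σ, U, -, hW, hU, hiso⟩ := Pool.Agent.Helper2K9.Cub.conics_iso hF.1 hF.2 hF0
    (fun i l => A l i) hA L t ht w hw β γ (fun i => (hβγ i).1) (fun i => (hβγ i).2) hG hodd
  exact ⟨k, m, σ, U, hW, hU, hiso⟩

/-- (A) and (B): every smooth cubic hypersurface of dimension `n ≥ 3`; (C): every smooth cubic
fourfold. (`r = 0` in `SectionFrom` and `PlaneThrough` means that no points are prescribed.) -/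
theorem result :
    (∀ (n : ℕ), 3 ≤ n → ∀ F : MvPolynomial (Fin (n + 2)) ℂ, SmoothCubic F →
      (OddCubicMap F → IsRational F ∧ SectionFrom F (r := 0) Fin.elim0) ∧
      (∀ (r : ℕ) (A : Fin r → Fin (n + 2) → ℂ), SpanInside F A → OddConics F A →
        IsRational F ∧ SectionFrom F A)) ∧
    (∀ F : MvPolynomial (Fin (4 + 2)) ℂ, SmoothCubic F →
      (CubicMap F → IsRational F ∧ PlaneThrough F (r := 0) Fin.elim0) ∧
      (∀ (r : ℕ) (A : Fin r → Fin (4 + 2) → ℂ), SpanInside F A → OddConics F A →
        IsRational F ∧ PlaneThrough F A)) := by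
  refine ⟨fun n hn F hF => ⟨?_, ?_⟩, fun F hF => ⟨?_, ?_⟩⟩
  · rintro ⟨G, hG, hdom, hodd⟩
    obtain ⟨k, m, σ, U, hW, hiso⟩ := maps_iso hn hF G hG hdom hodd
    refine ⟨isRational_of (Pool.Agent.Helper2K9.Cub.rational (by omega) rfl hF.1 hF.2 σ U hW hiso),
      ?_⟩
    obtain ⟨h1, h2, h3, v, e, c, l, h4⟩ := Pool.Agent.Helper2K9.Cub.section_of rfl hn hF.1 hF.2
      (r := 0) Fin.elim0 σ U (fun j l => l.elim0) hW hiso
    exact ⟨k, m, v, e, c, l, h1, h2, h3, h4⟩
  · intro r A hA h
    obtain ⟨k, m, σ, U, hW, hU, hiso⟩ := conics_coord hF A hA h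
    refine ⟨isRational_of (Pool.Agent.Helper2K9.Cub.rational (by omega) rfl hF.1 hF.2 σ U hW hiso),
      ?_⟩
    obtain ⟨h1, h2, h3, v, e, c, l, h4⟩ := Pool.Agent.Helper2K9.Cub.section_of rfl hn hF.1 hF.2
      A σ U hU hW hiso
    exact ⟨k, m, v, e, c, l, h1, h2, h3, h4⟩
  · rintro ⟨N, G, hG, hdom⟩
    have hF0 : F ≠ 0 := Pool.Agent.TH314.PD.ne_zero_of_smooth (m := 4 + 1) hF.2
    obtain ⟨c, B, h1, h2⟩ := Pool.Agent.TH314.PD.restrict_exists (n := 4) (by norm_num) hF.1 hF0 G
      hdom.1 hdom.2
    set G' : Fin (4 + 2) → MvPolynomial (Fin 4) ℂ :=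
      fun i => aeval (Pool.Agent.TH314.PD.sub c B) (G i) with hG'
    have hG'd : ∀ i, (G' i).totalDegree ≤ 3 :=
      fun i => Pool.Agent.TH314.PD.aeval_sub_deg c B (G i) (hG i)
    obtain ⟨h3, h4⟩ := Pool.Agent.TH314.PD.bound (n := 4) (k := 3) (d := 3) (by norm_num) F hF.1
      hF.2 G' hG'd h1 h2
    have h5 : 0 < mapDegree G' := by
      have h6 : 0 < Module.finrank (Pool.Agent.TH314.PD.ratioField fun i =>
        algebraMap (MvPolynomial (Fin 4) ℂ) (FractionRing (MvPolynomial (Fin 4) ℂ)) (G' i))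
        (FractionRing (MvPolynomial (Fin 4) ℂ)) := Module.finrank_pos
      exact h6
    have h6 : mapDegree G' * (3 * (3 - 1) ^ 4) ≤ (4 + 1) * (3 - 1) ^ 4 := h4
    have h7 : mapDegree G' = 1 := by
      norm_num at h6
      omega
    obtain ⟨k, m, σ, U, hW, hiso⟩ := maps_iso (by norm_num) hF G' hG'd ⟨h1, h2⟩
      (by rw [h7]; exact odd_one)
    refine ⟨isRational_of (Pool.Agent.Helper2K9.Cub.rational (by omega) rfl hF.1 hF.2 σ U hW hiso),
      ?_⟩
    obtain ⟨v, hv1, hv2, hv3⟩ := Pool.Agent.Helper2K9.Cub.plane4 hF.1 hF.2 (r := 0) Fin.elim0 σ U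
      (fun j l => l.elim0) hW hiso
    exact ⟨v, hv1, hv3, hv2⟩
  · intro r A hA h
    obtain ⟨k, m, σ, U, hW, hU, hiso⟩ := conics_coord hF A hA h
    refine ⟨isRational_of (Pool.Agent.Helper2K9.Cub.rational (by omega) rfl hF.1 hF.2 σ U hW hiso),
      ?_⟩
    obtain ⟨v, hv1, hv2, hv3⟩ := Pool.Agent.Helper2K9.Cub.plane4 hF.1 hF.2 A σ U hU hW hiso
    exact ⟨v, hv1, hv3, hv2⟩

end Pool.Agent.Results.MP_2619d0_ag.EverySmoothCubic
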