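import Mathlib
import Pool.Agent.Helper2K9.Cub.NoBir
import Pool.Agent.R845.E3.Rat

/-!
# Smooth cubic fourfolds are not dominated through polynomials of degree three

No smooth cubic fourfold (with or without planes) is dominated by an affine space of any dimension
through polynomials of degree at most three. Degree four is attained: the smooth cubic fourfold
`∑ u_i v_i (u_i + v_i) = 0` (projectively equivalent to the Fermat cubic fourfold) has a birational
parametrization by polynomials of degree four. So four is the least degree of polynomials which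
parametrize a smooth cubic fourfold.

Proof of the first part. The class bound (project PD) leaves only birational parametrizations
`H : P⁴ ⇢ X`. Let `ℓ` be a line of `X` and `h(s)` the (primitive) image of the moving point `ℓ(s)`
under the inverse map, so that `H(h(s)) = c(s) ℓ(s)`. By degrees `c` has a root `s₀`; then `b = h(s₀)`
is a base point and the expansion of `F (H (h(s) + c(s) w)) = 0` at `s₀` shows that the linear span of
`ℓ(s₀)` and of the image of the Jacobian matrix of `H` at `b` is contained in `X`. By the results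
on conics through base points `ℓ(s₀)` lies in a plane of `X`. But `X` contains only countably many
planes (three ternary quadratic forms without common zeros have no linear syzygy, so that planes are
isolated), and through a very general point of `X` there is a line of `X` which meets none of them.
-/

set_option autoImplicit false

namespace Pool.Agent.Results.MP_2619d0_ag.NoCubicParametrization

open MvPolynomial

/-- `F` is the equation of a smooth cubic hypersurface of dimension `n`: a cubic form in `n + 2`
variables whose partial derivatives have no common zero besides the origin -/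
def SmoothCubic {n : ℕ} (F : MvPolynomial (Fin (n + 2)) ℂ) : Prop :=
  F.IsHomogeneous 3 ∧ ∀ z : Fin (n + 2) → ℂ, (∀ i, eval z (pderiv i F) = 0) → z = 0

/-- The tuple `G` of polynomials in `N` variables gives a dominant rational map to the
hypersurface `F = 0`: `F` vanishes at `G`, and every form vanishing at `G` is divisible by `F`. -/
def Dominant {n N : ℕ} (F : MvPolynomial (Fin (n + 2)) ℂ)
    (G : Fin (n + 2) → MvPolynomial (Fin N) ℂ) : Prop :=
  aeval G F = 0 ∧ ∀ (e : ℕ) (H : MvPolynomial (Fin (n + 2)) ℂ), H.IsHomogeneous e →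
    aeval G H = 0 → F ∣ H

/-- the degree of the map given by `G`: the degree of the field of rational functions
`ℂ(t_1, …, t_n)` over its subfield generated over `ℂ` by all ratios `G i / G j` -/
noncomputable def mapDegree {n : ℕ} (G : Fin (n + 2) → MvPolynomial (Fin n) ℂ) : ℕ :=
  Module.finrank (IntermediateField.adjoin ℂ {z : FractionRing (MvPolynomial (Fin n) ℂ) |
    ∃ i j, z = algebraMap (MvPolynomial (Fin n) ℂ) (FractionRing (MvPolynomial (Fin n) ℂ)) (G i) /
      algebraMap (MvPolynomial (Fin n) ℂ) (FractionRing (MvPolynomial (Fin n) ℂ)) (G j)})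
    (FractionRing (MvPolynomial (Fin n) ℂ))

/-- the cubic form `∑ u_i v_i (u_i + v_i)` in the variables `u_0, u_1, u_2, v_0, v_1, v_2` -/
noncomputable def Fex : MvPolynomial (Fin (4 + 2)) ℂ :=
  X 0 * X 3 * (X 0 + X 3) + X 1 * X 4 * (X 1 + X 4) + X 2 * X 5 * (X 2 + X 5)

/-- the quadratic (affine: cubic) factor `F(p, p, q) / 3`, `p = (1, a, b)`, `q = (1, c, d)` -/
noncomputable def Aex : MvPolynomial (Fin 4) ℂ := 1 + X 0 ^ 2 * X 2 + X 1 ^ 2 * X 3

/-- the other factor -/
noncomputable def Bex : MvPolynomial (Fin 4) ℂ := 1 + X 0 * X 2 ^ 2 + X 1 * X 3 ^ 2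

/-- the third intersection point of the line through `(1, a, b, 0, 0, 0)` and
`(0, 0, 0, 1, c, d)` -/
noncomputable def Gex : Fin (4 + 2) → MvPolynomial (Fin 4) ℂ :=
  ![Bex, Bex * X 0, Bex * X 1, -Aex, -Aex * X 2, -Aex * X 3]

theorem fex_smooth : SmoothCubic Fex := by
  refine ⟨?_, ?_⟩
  · have h : ∀ i j : Fin (4 + 2), (X i * X j * (X i + X j) :
        MvPolynomial (Fin (4 + 2)) ℂ).IsHomogeneous 3 := fun i j =>
      ((isHomogeneous_X ℂ i).mul (isHomogeneous_X ℂ j)).mul
        ((isHomogeneous_X ℂ i).add (isHomogeneous_X ℂ j))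
    exact ((h 0 3).add (h 1 4)).add (h 2 5)
  · intro z hz
    have key : ∀ a b : ℂ, 2 * a * b + b ^ 2 = 0 → a ^ 2 + 2 * a * b = 0 → a = 0 ∧ b = 0 := by
      intro a b h1 h2
      have h3 : b * (2 * a + b) = 0 := by linear_combination h1
      rcases mul_eq_zero.1 h3 with hb | hb
      · rw [hb, mul_zero, add_zero] at h2
        exact ⟨pow_eq_zero_iff two_ne_zero |>.1 h2, hb⟩
      · have h4 : a ^ 2 = 0 := by linear_combination (-1 / 3 : ℂ) * h2 + (2 / 3 : ℂ) * a * hb
        have h5 := pow_eq_zero_iff two_ne_zero |>.1 h4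
        refine ⟨h5, ?_⟩
        rw [h5, mul_zero, zero_add] at hb
        exact hb
    have e : ∀ i : Fin (4 + 2), eval z (pderiv i Fex) = _ := fun i => rfl
    have h0 := hz 0
    have h1 := hz 1
    have h2 := hz 2
    have h3 := hz 3
    have h4 := hz 4
    have h5 := hz 5
    simp only [Fex, map_add, Derivation.leibniz, pderiv_X, smul_eq_mul, map_mul, eval_X,
      Pi.single_apply] at h0 h1 h2 h3 h4 h5
    simp only [Fin.isValue, Fin.reduceEq, if_true, if_false, map_one, map_zero, mul_one, mul_zero,
      add_zero, zero_add] at h0 h1 h2 h3 h4 h5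
    obtain ⟨a0, a3⟩ := key (z 0) (z 3) (by linear_combination h0) (by linear_combination h3)
    obtain ⟨a1, a4⟩ := key (z 1) (z 4) (by linear_combination h1) (by linear_combination h4)
    obtain ⟨a2, a5⟩ := key (z 2) (z 5) (by linear_combination h2) (by linear_combination h5)
    funext i
    fin_cases i
    · exact a0
    · exact a1
    · exact a2
    · exact a3
    · exact a4
    · exact a5

theorem gex_deg : ∀ i, (Gex i).totalDegree ≤ 4 := by
  have hA : Aex.totalDegree ≤ 3 := by
    unfold Aex
    refine (totalDegree_add _ _).trans (max_le ((totalDegree_add _ _).trans (max_le ?_ ?_)) ?_)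
    · rw [totalDegree_one]; omega
    · refine (totalDegree_mul _ _).trans ?_
      have h1 := totalDegree_pow (X 0 : MvPolynomial (Fin 4) ℂ) 2
      rw [totalDegree_X] at h1
      rw [totalDegree_X]
      omega
    · refine (totalDegree_mul _ _).trans ?_
      have h1 := totalDegree_pow (X 1 : MvPolynomial (Fin 4) ℂ) 2
      rw [totalDegree_X] at h1
      rw [totalDegree_X]
      omega
  have hB : Bex.totalDegree ≤ 3 := by
    unfold Bex
    refine (totalDegree_add _ _).trans (max_le ((totalDegree_add _ _).trans (max_le ?_ ?_)) ?_)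
    · rw [totalDegree_one]; omega
    · refine (totalDegree_mul _ _).trans ?_
      have h1 := totalDegree_pow (X 2 : MvPolynomial (Fin 4) ℂ) 2
      rw [totalDegree_X] at h1
      rw [totalDegree_X]
      omega
    · refine (totalDegree_mul _ _).trans ?_
      have h1 := totalDegree_pow (X 3 : MvPolynomial (Fin 4) ℂ) 2
      rw [totalDegree_X] at h1
      rw [totalDegree_X]
      omega
  have hAn : (-Aex).totalDegree ≤ 3 := by rw [totalDegree_neg]; exact hA
  have hX : ∀ (P : MvPolynomial (Fin 4) ℂ) (i : Fin 4), P.totalDegree ≤ 3 →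
      (P * X i).totalDegree ≤ 4 := by
    intro P i hP
    refine (totalDegree_mul _ _).trans ?_
    rw [totalDegree_X]
    omega
  intro i
  fin_cases i
  · exact hB.trans (by norm_num)
  · exact hX _ _ hB
  · exact hX _ _ hB
  · exact hAn.trans (by norm_num)
  · exact hX _ _ hAn
  · exact hX _ _ hAn

theorem gex_zero : aeval Gex Fex = 0 := by
  unfold Fex
  simp only [map_add, map_mul, aeval_X]
  change Bex * -Aex * (Bex + -Aex) + Bex * X 0 * (-Aex * X 2) * (Bex * X 0 + -Aex * X 2) +
    Bex * X 1 * (-Aex * X 3) * (Bex * X 1 + -Aex * X 3) = 0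
  have hA : Aex = 1 + X 0 ^ 2 * X 2 + X 1 ^ 2 * X 3 := rfl
  have hB : Bex = 1 + X 0 * X 2 ^ 2 + X 1 * X 3 ^ 2 := rfl
  linear_combination (-Aex * Bex ^ 2) * hA.symm + (Aex ^ 2 * Bex) * hB.symm

theorem gex_top : (Pool.Agent.TH314.PD.ratioField fun i => algebraMap (MvPolynomial (Fin 4) ℂ)
    (Pool.Agent.R845.E3.Rn 4) (Gex i)) = ⊤ := by
  set io := algebraMap (MvPolynomial (Fin 4) ℂ) (Pool.Agent.R845.E3.Rn 4) with hio
  have hinj : Function.Injective io := IsFractionRing.injective _ _
  have hB : io Bex ≠ 0 := by
    intro h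
    have h1 := congrArg (eval 0) (hinj (h.trans (map_zero io).symm))
    simp [Bex] at h1
  have hA : io (-Aex) ≠ 0 := by
    intro h
    have h1 := congrArg (eval 0) (hinj (h.trans (map_zero io).symm))
    simp [Aex] at h1
  set R := Pool.Agent.TH314.PD.ratioField fun i => io (Gex i) with hR
  have hX : ∀ l : Fin 4, io (X l) ∈ R := by
    have h1 : ∀ i j, io (Gex i) / io (Gex j) ∈ R := fun i j =>
      IntermediateField.subset_adjoin _ _ ⟨i, j, rfl⟩
    intro l
    fin_cases l
    · have h2 := h1 1 0
      have h3 : io (Gex 1) / io (Gex 0) = io (X 0) := by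
        change io (Bex * X 0) / io Bex = io (X 0)
        rw [map_mul, mul_div_cancel_left₀ _ hB]
      rw [h3] at h2
      exact h2
    · have h2 := h1 2 0
      have h3 : io (Gex 2) / io (Gex 0) = io (X 1) := by
        change io (Bex * X 1) / io Bex = io (X 1)
        rw [map_mul, mul_div_cancel_left₀ _ hB]
      rw [h3] at h2
      exact h2
    · have h2 := h1 4 3
      have h3 : io (Gex 4) / io (Gex 3) = io (X 2) := by
        change io (-Aex * X 2) / io (-Aex) = io (X 2)
        rw [map_mul, mul_div_cancel_left₀ _ hA]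
      rw [h3] at h2
      exact h2
    · have h2 := h1 5 3
      have h3 : io (Gex 5) / io (Gex 3) = io (X 3) := by
        change io (-Aex * X 3) / io (-Aex) = io (X 3)
        rw [map_mul, mul_div_cancel_left₀ _ hA]
      rw [h3] at h2
      exact h2
  have hP : ∀ P : MvPolynomial (Fin 4) ℂ, io P ∈ R := by
    intro P
    induction P using MvPolynomial.induction_on with
    | C a =>
      have h1 : io (C a) = algebraMap ℂ (Pool.Agent.R845.E3.Rn 4) a :=
        (IsScalarTower.algebraMap_apply ℂ (MvPolynomial (Fin 4) ℂ) (Pool.Agent.R845.E3.Rn 4) a).symm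
      rw [h1]
      exact R.algebraMap_mem a
    | add f g hf hg =>
      rw [map_add]
      exact add_mem hf hg
    | mul_X f i hf =>
      rw [map_mul]
      exact mul_mem hf (hX i)
  rw [eq_top_iff]
  intro z _
  obtain ⟨a, b, -, rfl⟩ := IsFractionRing.div_surjective (A := MvPolynomial (Fin 4) ℂ) z
  exact div_mem (hP a) (hP b)

/-- Part 1: no smooth cubic fourfold is dominated by an affine space (of any dimension `N`) through
polynomials of degree at most three. Part 2: some smooth cubic fourfold has a birational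
parametrization by polynomials of degree at most four. -/
theorem result :
    (∀ F : MvPolynomial (Fin (4 + 2)) ℂ, SmoothCubic F →
      ¬ ∃ (N : ℕ) (G : Fin (4 + 2) → MvPolynomial (Fin N) ℂ),
        (∀ i, (G i).totalDegree ≤ 3) ∧ Dominant F G) ∧
    ∃ F : MvPolynomial (Fin (4 + 2)) ℂ, SmoothCubic F ∧
      ∃ G : Fin (4 + 2) → MvPolynomial (Fin 4) ℂ,
        (∀ i, (G i).totalDegree ≤ 4) ∧ Dominant F G ∧ mapDegree G = 1 := by
  refine ⟨?_, Fex, fex_smooth, Gex, gex_deg, ?_, ?_⟩
  · rintro F hF ⟨N, G, hG, hdom⟩
    have hF0 : F ≠ 0 := Pool.Agent.TH314.PD.ne_zero_of_smooth (m := 4 + 1) hF.2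
    obtain ⟨c, B, h1, h2⟩ := Pool.Agent.TH314.PD.restrict_exists (n := 4) (by norm_num) hF.1 hF0 G
      hdom.1 hdom.2
    set G' : Fin (4 + 2) → MvPolynomial (Fin 4) ℂ :=
      fun i => aeval (Pool.Agent.TH314.PD.sub c B) (G i) with hG'
    have hG'd : ∀ i, (G' i).totalDegree ≤ 3 :=
      fun i => Pool.Agent.TH314.PD.aeval_sub_deg c B (G i) (hG i)
    obtain ⟨h3, h4⟩ := Pool.Agent.TH314.PD.bound (n := 4) (k := 3) (d := 3) (by norm_num) F hF.1
      hF.2 G' hG'd h1 h2
    have h5 : 0 < mapDegree G' := by
      have h6 : 0 < Module.finrank (Pool.Agent.TH314.PD.ratioField fun i =>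
        algebraMap (MvPolynomial (Fin 4) ℂ) (FractionRing (MvPolynomial (Fin 4) ℂ)) (G' i))
        (FractionRing (MvPolynomial (Fin 4) ℂ)) := Module.finrank_pos
      exact h6
    have h6 : mapDegree G' * (3 * (3 - 1) ^ 4) ≤ (4 + 1) * (3 - 1) ^ 4 := h4
    have h7 : mapDegree G' = 1 := by
      norm_num at h6
      omega
    exact Pool.Agent.Helper2K9.Cub.no_birational hF.1 hF.2 G' hG'd h1 h2 h7
  · have h := Pool.Agent.R845.E3.Rat.gp_of_top (r := 4 + 2) (n := 4) rfl (by norm_num) Fex
      fex_smooth.1 fex_smooth.2 (fun i => algebraMap (MvPolynomial (Fin 4) ℂ)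
        (Pool.Agent.R845.E3.Rn 4) (Gex i)) (by
        have h3 := (comp_aeval_apply (φ := IsScalarTower.toAlgHom ℂ (MvPolynomial (Fin 4) ℂ)
          (Pool.Agent.R845.E3.Rn 4)) Gex Fex).symm
        rw [gex_zero, map_zero] at h3
        exact h3) gex_top
    refine ⟨gex_zero, fun e H hH h0 => h.2 e H hH ?_⟩
    have h3 := (comp_aeval_apply (φ := IsScalarTower.toAlgHom ℂ (MvPolynomial (Fin 4) ℂ)
      (Pool.Agent.R845.E3.Rn 4)) Gex H).symm
    rw [h0, map_zero] at h3
    exact h3
  · change Module.finrank (Pool.Agent.TH314.PD.ratioField fun i =>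
      algebraMap (MvPolynomial (Fin 4) ℂ) (Pool.Agent.R845.E3.Rn 4) (Gex i))
      (Pool.Agent.R845.E3.Rn 4) = 1
    rw [gex_top]
    exact IntermediateField.finrank_top

end Pool.Agent.Results.MP_2619d0_ag.NoCubicParametrization
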