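import Mathlib
import Pool.Agent.Helper52K9.CUB.Stab
import Pool.Agent.Helper2K9.Cub.Maps
import Pool.Agent.Helper2K9.Cub.Sect
import Pool.Agent.R845.E3.All

/-!
# Cubic polynomials in any number of variables: odd multisections and stable parametrizations

Let `X = (F = 0)` be a smooth cubic hypersurface of dimension `n ≥ 3` and let `G : A^N ⇢ X` be a
dominant rational map given by polynomials of degree at most three in any number `N` of variables (the
fibres may have positive dimension, so that `G` has no degree).

(A) If `G` has a rational multisection of odd degree (for instance a rational section), or if it is a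
stable birational parametrization (`ℂ(t_1, …, t_N)` is purely transcendental over the function field
of `X`), then `X` is rational, and it contains a linear subspace `W` with `1 ≤ dim W ≤ n / 2` such that
the projection from `W` has a rational section.

(B) If `X` is very general, this never happens: every rational multisection of `G` has even degree, and
`G` is not a stable birational parametrization. So a very general cubic hypersurface is not retract
rational (in particular not stably rational) through polynomials of degree at most three.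

Idea of the proof. Fix an odd extension `M` of the function field and a point `τ` over `M` in the fibre
of the homogenized map `H` over the generic point `x`. If there are at least `n + 2` homogeneous
variables, then `H` has a base point `b` by dimension. The line through `τ` and `b` goes to a conic
through `x` which starts in the linear space `W_b = im dH(b)` of `X`. Now everything is done for the
single point `x` over `M` instead of for a family: the reflection of `x` in the point of the conic in
`W_b` is again a generic point of odd degree or the projection from a linear subspace of `X` has a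
rational section (theorem of Springer), and the residual line of the plane of the conic gives the same
conclusion. If the conic degenerates (its point in `W_b` is zero or the span is too small), then `H`
can be replaced by cubic forms in one variable less with the same value at a new point. After finitely
many steps at most `n + 1` variables are left; then `τ` has algebraically independent coordinates, the
restricted map is generically finite of odd degree, and the class bound applies. A stable birational
parametrization has a rational section, by specialization of the transcendence basis.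
-/

set_option autoImplicit false

namespace Pool.Agent.Results.MP_2619d0_ag.OddMultisections

open MvPolynomial

/-- `F` is the equation of a smooth cubic hypersurface of dimension `n`: a cubic form in `n + 2`
variables whose partial derivatives have no common zero besides the origin -/
def SmoothCubic {n : ℕ} (F : MvPolynomial (Fin (n + 2)) ℂ) : Prop :=
  F.IsHomogeneous 3 ∧ ∀ z : Fin (n + 2) → ℂ, (∀ i, eval z (pderiv i F) = 0) → z = 0

/-- The tuple `G` of polynomials in `N` variables gives a dominant rational map to the
hypersurface `F = 0`: `F` vanishes at `G`, and every form vanishing at `G` is divisible by `F`. -/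
def Dominant {n N : ℕ} (F : MvPolynomial (Fin (n + 2)) ℂ)
    (G : Fin (n + 2) → MvPolynomial (Fin N) ℂ) : Prop :=
  aeval G F = 0 ∧ ∀ (e : ℕ) (H : MvPolynomial (Fin (n + 2)) ℂ), H.IsHomogeneous e →
    aeval G H = 0 → F ∣ H

/-- `x` is a generic point of the hypersurface `F = 0` with coordinates in an extension field `M` of
the complex numbers: `F` vanishes at `x`, and every form vanishing at `x` is divisible by `F` -/
def GenericPoint {n : ℕ} {M : Type} [Field M] [Algebra ℂ M] (F : MvPolynomial (Fin (n + 2)) ℂ)
    (x : Fin (n + 2) → M) : Prop :=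
  aeval x F = 0 ∧ ∀ (e : ℕ) (H : MvPolynomial (Fin (n + 2)) ℂ), H.IsHomogeneous e →
    aeval x H = 0 → F ∣ H

/-- the field generated over `ℂ` by the ratios of the coordinates of `x`; for a generic point of
`F = 0` it is the function field of the hypersurface -/
noncomputable def functionField {n : ℕ} {M : Type} [Field M] [Algebra ℂ M] (x : Fin (n + 2) → M) :
    IntermediateField ℂ M :=
  IntermediateField.adjoin ℂ {z | ∃ i j, z = x i / x j}

/-- the values `G i`, as elements of the field `ℂ(t_1, …, t_N)` of rational functions -/
noncomputable def values {n N : ℕ} (G : Fin (n + 2) → MvPolynomial (Fin N) ℂ) :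
    Fin (n + 2) → FractionRing (MvPolynomial (Fin N) ℂ) :=
  fun i => algebraMap (MvPolynomial (Fin N) ℂ) (FractionRing (MvPolynomial (Fin N) ℂ)) (G i)

/-- the hypersurface `F = 0` of dimension `n` is rational: it has a birational parametrization -/
def IsRational {n : ℕ} (F : MvPolynomial (Fin (n + 2)) ℂ) : Prop :=
  ∃ G : Fin (n + 2) → MvPolynomial (Fin n) ℂ, Dominant F G ∧ functionField (values G) = ⊤

/-- `τ` is a point of affine `N`-space over the field `M` which is a rational multisection of `G`: the
point `G(τ)` is a generic point of `F = 0`. Its degree is the degree of `M` over the function field of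
`F = 0`, that is, over the field generated by the ratios of the coordinates of `G(τ)`. -/
def Multisection {n N : ℕ} (F : MvPolynomial (Fin (n + 2)) ℂ)
    (G : Fin (n + 2) → MvPolynomial (Fin N) ℂ) {M : Type} [Field M] [Algebra ℂ M]
    (τ : Fin N → M) : Prop :=
  GenericPoint F (fun i => aeval τ (G i))

/-- the degree of the multisection `τ` (zero if it is infinite) -/
noncomputable def multiDegree {n N : ℕ} (G : Fin (n + 2) → MvPolynomial (Fin N) ℂ) {M : Type}
    [Field M] [Algebra ℂ M] (τ : Fin N → M) : ℕ :=
  Module.finrank (functionField fun i => aeval τ (G i)) M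

/-- `G` has a rational multisection of odd degree, over some field `M` -/
def OddMultisection {n N : ℕ} (F : MvPolynomial (Fin (n + 2)) ℂ)
    (G : Fin (n + 2) → MvPolynomial (Fin N) ℂ) : Prop :=
  ∃ (M : Type) (_ : Field M) (_ : Algebra ℂ M) (τ : Fin N → M), Multisection F G τ ∧
    Odd (multiDegree G τ)

/-- `G` consists of polynomials of degree at most three and maps affine `N`-space to `F = 0` -/
def CubicMap {n N : ℕ} (F : MvPolynomial (Fin (n + 2)) ℂ)
    (G : Fin (n + 2) → MvPolynomial (Fin N) ℂ) : Prop :=
  (∀ i, (G i).totalDegree ≤ 3) ∧ aeval G F = 0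

/-- the field `E` is purely transcendental over its subfield `K`: it is generated over `K` by
elements which are algebraically independent over `K` -/
def PurelyTranscendental {E : Type} [Field E] [Algebra ℂ E] (K : IntermediateField ℂ E) : Prop :=
  ∃ (ι : Type) (y : ι → E), AlgebraicIndependent K y ∧
    IntermediateField.adjoin K (Set.range y) = ⊤

/-- `G` is a stable birational parametrization of `F = 0`: it gives a dominant rational map, and the
field `ℂ(t_1, …, t_N)` is purely transcendental over the function field of `F = 0` (the field generated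
over `ℂ` by the ratios `G i / G j`), so that affine `N`-space is birational to the product of `F = 0`
and an affine space, by a map over `F = 0` -/
def StableParametrization {n N : ℕ} (F : MvPolynomial (Fin (n + 2)) ℂ)
    (G : Fin (n + 2) → MvPolynomial (Fin N) ℂ) : Prop :=
  Dominant F G ∧ PurelyTranscendental (functionField (values G))

/-- The hypersurface `F = 0` of dimension `n` contains a linear subspace `W`, spanned by linearly
independent vectors `v_0, …, v_k` with `1 ≤ k ≤ n - k`, and the projection from `W` has a rational
section: with a basis `e_0, …, e_m` (`m = n - k`) of a complement of `W`, the form `F` vanishes at the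
point `∑ c_j v_j + l (e_0 + y_1 e_1 + … + y_m e_m)`, where the `c_j` and `l ≠ 0` are polynomials in
`y_1, …, y_m`. -/
def HasSection {n : ℕ} (F : MvPolynomial (Fin (n + 2)) ℂ) : Prop :=
  ∃ (k m : ℕ) (v : Fin (k + 1) → Fin (n + 2) → ℂ) (e : Fin (m + 1) → Fin (n + 2) → ℂ)
    (c : Fin (k + 1) → MvPolynomial (Fin m) ℂ) (l : MvPolynomial (Fin m) ℂ),
    k + m = n ∧ 1 ≤ k ∧ k ≤ m ∧ LinearIndependent ℂ (Sum.elim v e) ∧
    (∀ a : Fin (k + 1) → ℂ, eval (fun i => ∑ j, a j * v j i) F = 0) ∧ l ≠ 0 ∧
    aeval (fun i => ∑ j, c j * C (v j i) +
      l * ∑ j, (Fin.cons 1 X : Fin (m + 1) → MvPolynomial (Fin m) ℂ) j * C (e j i)) F = 0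

/-- the coefficients of a cubic form -/
noncomputable def coeffs {n : ℕ} (F : MvPolynomial (Fin (n + 2)) ℂ) :
    {m : Fin (n + 2) →₀ ℕ // m.degree = 3} → ℂ := fun m => coeff m.1 F

theorem isRational_of {n : ℕ} {F : MvPolynomial (Fin (n + 2)) ℂ}
    (h : ∃ G : Fin (n + 2) → MvPolynomial (Fin n) ℂ,
      Pool.Agent.R845.E3.Gp F (fun i => algebraMap (MvPolynomial (Fin n) ℂ)
        (Pool.Agent.R845.E3.Rn n) (G i)) ∧
      (Pool.Agent.TH314.PD.ratioField fun i => algebraMap (MvPolynomial (Fin n) ℂ)
        (Pool.Agent.R845.E3.Rn n) (G i)) = ⊤) : IsRational F := by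
  obtain ⟨G, h1, h2⟩ := h
  have h3 : ∀ P : MvPolynomial (Fin (n + 2)) ℂ,
      aeval (fun i => algebraMap (MvPolynomial (Fin n) ℂ) (Pool.Agent.R845.E3.Rn n) (G i)) P =
      algebraMap (MvPolynomial (Fin n) ℂ) (Pool.Agent.R845.E3.Rn n) (aeval G P) := fun P =>
    (comp_aeval_apply (φ := IsScalarTower.toAlgHom ℂ (MvPolynomial (Fin n) ℂ)
      (Pool.Agent.R845.E3.Rn n)) G P).symm
  refine ⟨G, ⟨?_, ?_⟩, ?_⟩
  · apply IsFractionRing.injective (MvPolynomial (Fin n) ℂ) (Pool.Agent.R845.E3.Rn n)
    rw [← h3, h1.1, map_zero]
  · intro e P hP h0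
    exact h1.2 e P hP (by rw [h3, h0, map_zero])
  · exact h2

/-- a stable birational parametrization has a rational section -/
theorem section_of_stable {n N : ℕ} {F : MvPolynomial (Fin (n + 2)) ℂ} (hF : F.IsHomogeneous 3)
    (G : Fin (n + 2) → MvPolynomial (Fin N) ℂ) (h : StableParametrization F G) :
    ∃ (M : Type) (_ : Field M) (_ : Algebra ℂ M) (τ : Fin N → M), Multisection F G τ ∧
      multiDegree G τ = 1 := by
  obtain ⟨hdom, ι, y, hy, hE⟩ := h
  set t : Fin N → FractionRing (MvPolynomial (Fin N) ℂ) := fun j =>
    algebraMap (MvPolynomial (Fin N) ℂ) (FractionRing (MvPolynomial (Fin N) ℂ)) (X j) with ht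
  have h3 : ∀ Q : MvPolynomial (Fin N) ℂ, aeval t Q =
      algebraMap (MvPolynomial (Fin N) ℂ) (FractionRing (MvPolynomial (Fin N) ℂ)) Q := by
    intro Q
    have h1 := comp_aeval_apply (φ := IsScalarTower.toAlgHom ℂ (MvPolynomial (Fin N) ℂ)
      (FractionRing (MvPolynomial (Fin N) ℂ))) (X : Fin N → MvPolynomial (Fin N) ℂ) Q
    rw [aeval_X_left_apply] at h1
    exact h1.symm
  have h4 : values G = fun i => aeval t (G i) := by
    funext i
    exact (h3 (G i)).symm
  have h5 : ∀ P : MvPolynomial (Fin (n + 2)) ℂ, aeval (values G) P =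
      algebraMap (MvPolynomial (Fin N) ℂ) (FractionRing (MvPolynomial (Fin N) ℂ))
        (aeval G P) := fun P =>
    (comp_aeval_apply (φ := IsScalarTower.toAlgHom ℂ (MvPolynomial (Fin N) ℂ)
      (FractionRing (MvPolynomial (Fin N) ℂ))) G P).symm
  have hG : Pool.Agent.R845.E3.Gp F (values G) := by
    refine ⟨by rw [h5, hdom.1, map_zero], fun e P hP h0 => hdom.2 e P hP ?_⟩
    rw [h5] at h0
    exact (IsFractionRing.injective (MvPolynomial (Fin N) ℂ)
      (FractionRing (MvPolynomial (Fin N) ℂ))) (h0.trans (map_zero _).symm)
  change AlgebraicIndependent (Pool.Agent.TH314.PD.ratioField (values G)) y at hy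
  change IntermediateField.adjoin (Pool.Agent.TH314.PD.ratioField (values G)) (Set.range y) = ⊤
    at hE
  rw [h4] at hG
  obtain ⟨τ, h1, h2⟩ := Pool.Agent.Helper52K9.CUB.stable_pt hF G t hG
    (ι := ι) (y := y) (by rw [← h4]; exact hy) (by rw [← h4]; exact hE)
  exact ⟨_, inferInstance, inferInstance, τ, h1, h2⟩

/-- multisections of odd degree: adapted coordinates -/
theorem coord {n N : ℕ} (hn : 3 ≤ n) {F : MvPolynomial (Fin (n + 2)) ℂ} (hF : SmoothCubic F)
    (G : Fin (n + 2) → MvPolynomial (Fin N) ℂ) (hG : ∀ i, (G i).totalDegree ≤ 3)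
    (hGF : aeval G F = 0) {M : Type} [Field M] [Algebra ℂ M] (τ : Fin N → M)
    (hτ : Multisection F G τ) (hodd : Odd (multiDegree G τ)) :
    ∃ (k m : ℕ) (σ : Fin (k + 1 + (m + 1)) ≃ Fin (n + 2)) (U : Fin (k + 1) → Fin (m + 1) → ℂ),
      Pool.Agent.R845.E3.VanW (Pool.Agent.R845.E3.shear U (rename σ.symm F)) ∧
      Pool.Agent.R845.E3.Iso (Pool.Agent.R845.E3.shear U (rename σ.symm F)) := by
  choose H hH hHG using fun i => Pool.Agent.R845.E3.hom3 (G i) (hG i)
  have hHF : aeval H F = 0 := by
    have h1 : (aeval H F).IsHomogeneous (3 * 3) := hF.1.aeval H hH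
    refine Pool.Agent.R845.E3.hom_zero h1 ?_
    rw [comp_aeval_apply]
    rw [show (fun i => aeval (Fin.cons 1 X : Fin (N + 1) → MvPolynomial (Fin N) ℂ) (H i)) = G
      from funext hHG]
    exact hGF
  have h1 : (fun i => aeval (Fin.cons 1 τ : Fin (N + 1) → M) (H i)) = fun i => aeval τ (G i) := by
    funext i
    rw [← hHG i, comp_aeval_apply]
    congr 2
    funext l
    refine Fin.cases ?_ (fun l => ?_) l
    · rw [Fin.cons_zero, Fin.cons_zero, map_one]
    · rw [Fin.cons_succ, Fin.cons_succ, aeval_X]
  refine Pool.Agent.Helper52K9.CUB.any_iso hn hF.1 hF.2 (N + 1) H hH hHF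
    (Fin.cons 1 τ : Fin (N + 1) → M) ?_ ?_
  · rw [h1]
    exact hτ
  · rw [h1]
    exact hodd

/-- (A) Let `X = (F = 0)` be ANY smooth cubic hypersurface of dimension `n ≥ 3` and let `G` be
polynomials of degree at most three in `N` variables at which `F` vanishes. If `G` has a rational
multisection of odd degree, or if it is a stable birational parametrization of `X`, then `X` is
rational and the projection from a linear subspace of `X` has a rational section.
(B) For very general `X` (outside the zero sets of countably many nonzero polynomials in the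
coefficients) such `G` has no rational multisection of odd degree, and `G` is not a stable birational
parametrization of `X`. -/
theorem result (n : ℕ) (hn : 3 ≤ n) :
    (∀ F : MvPolynomial (Fin (n + 2)) ℂ, SmoothCubic F →
      ∀ (N : ℕ) (G : Fin (n + 2) → MvPolynomial (Fin N) ℂ), CubicMap F G →
        OddMultisection F G ∨ StableParametrization F G → IsRational F ∧ HasSection F) ∧
    ∃ Ps : Set (MvPolynomial {m : Fin (n + 2) →₀ ℕ // m.degree = 3} ℂ), Ps.Countable ∧
      (0 : MvPolynomial {m : Fin (n + 2) →₀ ℕ // m.degree = 3} ℂ) ∉ Ps ∧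
      ∀ F : MvPolynomial (Fin (n + 2)) ℂ, SmoothCubic F →
        (∀ P ∈ Ps, eval (coeffs F) P ≠ 0) →
        ∀ (N : ℕ) (G : Fin (n + 2) → MvPolynomial (Fin N) ℂ), CubicMap F G →
          ¬ OddMultisection F G ∧ ¬ StableParametrization F G := by
  have key : ∀ F : MvPolynomial (Fin (n + 2)) ℂ, SmoothCubic F →
      ∀ (N : ℕ) (G : Fin (n + 2) → MvPolynomial (Fin N) ℂ), CubicMap F G →
        OddMultisection F G ∨ StableParametrization F G →
      ∃ (k m : ℕ) (σ : Fin (k + 1 + (m + 1)) ≃ Fin (n + 2)) (U : Fin (k + 1) → Fin (m + 1) → ℂ),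
        Pool.Agent.R845.E3.VanW (Pool.Agent.R845.E3.shear U (rename σ.symm F)) ∧
        Pool.Agent.R845.E3.Iso (Pool.Agent.R845.E3.shear U (rename σ.symm F)) := by
    intro F hF N G hG h
    have h1 : OddMultisection F G := by
      rcases h with h | h
      · exact h
      · obtain ⟨M, i1, i2, τ, h1, h2⟩ := section_of_stable hF.1 G h
        exact ⟨M, i1, i2, τ, h1, by rw [h2]; exact odd_one⟩
    obtain ⟨M, _, _, τ, hτ, hodd⟩ := h1
    exact coord hn hF G hG.1 hG.2 τ hτ hodd
  refine ⟨fun F hF N G hG h => ?_, ?_⟩
  · obtain ⟨k, m, σ, U, hW, hiso⟩ := key F hF N G hG h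
    refine ⟨isRational_of (Pool.Agent.Helper2K9.Cub.rational (by omega) rfl hF.1 hF.2 σ U hW hiso),
      ?_⟩
    obtain ⟨h1, h2, h3, v, e, c, l, h4, h5, -, h6, h7⟩ := Pool.Agent.Helper2K9.Cub.section_of rfl
      hn hF.1 hF.2 (r := 0) Fin.elim0 σ U (fun j l => l.elim0) hW hiso
    exact ⟨k, m, v, e, c, l, h1, h2, h3, h4, h5, h6, h7⟩
  · obtain ⟨Ps, h1, h2, h3⟩ := Pool.Agent.R845.VG.very_general (n + 2) 3
    have key2 : ∀ F : MvPolynomial (Fin (n + 2)) ℂ, SmoothCubic F →
        (∀ P ∈ Ps, eval (coeffs F) P ≠ 0) →
        ∀ (N : ℕ) (G : Fin (n + 2) → MvPolynomial (Fin N) ℂ), CubicMap F G →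
          ¬ (OddMultisection F G ∨ StableParametrization F G) := by
      intro F hF hP N G hG h
      obtain ⟨k, m, σ, U, hW, hiso⟩ := key F hF N G hG h
      have hkm : k + m = n := by
        have h4 := Fintype.card_congr σ
        rw [Fintype.card_fin, Fintype.card_fin] at h4
        omega
      exact Pool.Agent.R845.E3.at_all k m (by omega) _ hF.1.rename_isHomogeneous
        (Pool.Agent.R845.E3.sm_rename σ.symm hF.2)
        (Pool.Agent.R845.E3.ind_rename σ.symm (h3 F hP)) U hW hiso
    exact ⟨Ps, h1, h2, fun F hF hP N G hG => ⟨fun h => key2 F hF hP N G hG (Or.inl h),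
      fun h => key2 F hF hP N G hG (Or.inr h)⟩⟩

end Pool.Agent.Results.MP_2619d0_ag.OddMultisections
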