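import Mathlib
import Pool.Agent.Helper93K9.PAR.Main
import Pool.Agent.Helper93K9.PAR.Cm2
import Pool.Agent.Helper93K9.PAR.Cm3
import Pool.Agent.Helper93K9.PAR.Cm4
import Pool.Agent.TH314.PD.Final

/-!
# A parity law for cubic hypersurfaces: points which move in a curve

Let `X = (F = 0)` be a smooth complex cubic hypersurface of dimension `n ≥ 3`. We assume that the
cone over `X` is factorial over all fields (by a theorem of Grothendieck this is true for all smooth
`X` of dimension at least three, but this is not proved here), or that `X` is very general, or that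
`X` is the hypersurface `y₀ u₀² + y₁ u₁² + ∑ y_j³ = 0`. An odd point is
a generic point `x` of `X` with coordinates in a field `M` of odd degree over the function field
`ℂ(X)` of `X`. (For instance, a dominant rational map of odd degree from a variety `Y` of
dimension `n` to `X` is an odd point over `ℂ(Y)`.)

(A) Let `p` be another point of `X` over `M` which moves in a curve: the field generated by the
ratios of its coordinates has transcendence degree at most one. Then the third point of
intersection of `X` and the line through `x` and `p` is odd as well.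

(B) A rational curve of degree `e` on `X`, defined over `M`, through the odd point `x`, meets the
point `p` with multiplicity at most `(2 e - 2) / 3`. For instance, no conic through `x`, defined over
`M`, meets `p`. In other words: for every curve `Z` on `X` and every family of conics on `X` which
meet `Z`, the number of the conics through a general point of `X` is even (if it is finite). The
same holds for plane cubics with a double point on `Z`.

(C) Let `Z` be a curve. A rational map from `Z × ℙ^N` to `X` given by polynomials of degree at most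
two in the coordinates of `ℙ^N`, with arbitrary coefficients in `ℂ(Z)`, has no rational
multisection of odd degree. More generally, this holds for polynomials of degree at most `e` if the
map agrees to the order `m` with a constant map (over `ℂ(Z)`) at some section of `Z × ℙ^N`, where
`2 e ≤ 3 m + 1`.

(D) In particular, polynomials in `n` variables which are of degree at most two in all but one of the
variables (and of arbitrary degree in the last one) give no dominant rational map of odd degree to
`X`; so they give no birational parametrization of `X`.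

Proof of (A). First suppose that the cone over `X` is factorial. Let `κ` be the function field of the
curve. The closure of the point `x` over `κ`, a divisor, is given by one equation `ω`. The degree of `x` over `ℂ(X)` is the height of `ω`: minus the
degree of the divisor of `ω` at the places of `κ(X) / ℂ(X)` which are not trivial on `κ`. The
reflection `x ↦` third point of the line through `x` and `p` changes the equation by a power of the
equation `∑ X_i F_i(p)` of the tangent space at `p` when `p` is replaced by its reduction; its orders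
at these places are even when they do not vanish, because `X` is smooth: this gives the parity law.
The cone over the special cubic `y₀ u₀² + y₁ u₁² + ∑ y_j³ = 0` is factorial by the theorem of Nagata,
since it is a bundle of affine conics over the affine space. A very general cubic specializes to the
special one by a place of a function field over an algebraically closed subfield of `ℂ`, and the
parity law is carried over by the fundamental identity `∑ e f = n` for places.

(B) The third points of the points of the curve and `p` form a line or a point through an odd point,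
and there are no lines through odd points (starting files, project LI). (C), (D) follow from (B),
applied to the images of the lines through a point of `ℙ^N` over `ℂ(Z)`.
-/

set_option autoImplicit false

namespace Pool.Agent.Results.MP_2619d0_ag.ParityAlongCurves

open MvPolynomial

/-- `F` is the equation of a smooth cubic hypersurface of dimension `n`: a cubic form in `n + 2`
variables whose partial derivatives have no common zero besides the origin -/
def SmoothCubic {n : ℕ} (F : MvPolynomial (Fin (n + 2)) ℂ) : Prop :=
  F.IsHomogeneous 3 ∧ ∀ z : Fin (n + 2) → ℂ, (∀ i, eval z (pderiv i F) = 0) → z = 0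

/-- the coefficients of a cubic form -/
noncomputable def coeffs {n : ℕ} (F : MvPolynomial (Fin (n + 2)) ℂ) :
    {m : Fin (n + 2) →₀ ℕ // m.degree = 3} → ℂ := fun m => coeff m.1 F

/-- `x` is a generic point of the hypersurface `F = 0` with coordinates in an extension field `M` of
the complex numbers: `F` vanishes at `x`, and every form vanishing at `x` is divisible by `F` -/
def GenericPoint {n : ℕ} {M : Type} [Field M] [Algebra ℂ M] (F : MvPolynomial (Fin (n + 2)) ℂ)
    (x : Fin (n + 2) → M) : Prop :=
  aeval x F = 0 ∧ ∀ (e : ℕ) (H : MvPolynomial (Fin (n + 2)) ℂ), H.IsHomogeneous e →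
    aeval x H = 0 → F ∣ H

/-- the field generated over `ℂ` by the ratios of the coordinates of `x`; for a generic point of
`F = 0` it is the function field of `F = 0` -/
noncomputable def ratioField {n : ℕ} {M : Type} [Field M] [Algebra ℂ M] (x : Fin (n + 2) → M) :
    IntermediateField ℂ M :=
  IntermediateField.adjoin ℂ {z | ∃ i j, z = x i / x j}

/-- an odd point: a generic point with coordinates in a field of finite odd degree over the function
field of `F = 0` -/
def OddPoint {n : ℕ} {M : Type} [Field M] [Algebra ℂ M] (F : MvPolynomial (Fin (n + 2)) ℂ)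
    (x : Fin (n + 2) → M) : Prop :=
  GenericPoint F x ∧ Odd (Module.finrank (ratioField x) M)

/-- the point `p ≠ 0` of `F = 0` moves in a curve (or is constant): the field generated by the ratios
of its coordinates has transcendence degree at most one -/
def MovesInCurve {n : ℕ} {M : Type} [Field M] [Algebra ℂ M] (F : MvPolynomial (Fin (n + 2)) ℂ)
    (p : Fin (n + 2) → M) : Prop :=
  p ≠ 0 ∧ aeval p F = 0 ∧ Algebra.trdeg ℂ (ratioField p) ≤ 1

/-- the polar form `∑ x_i (∂F/∂X_i)(p)` -/
noncomputable def polar {n : ℕ} {M : Type} [Field M] [Algebra ℂ M]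
    (F : MvPolynomial (Fin (n + 2)) ℂ) (x p : Fin (n + 2) → M) : M :=
  ∑ i, x i * aeval p (pderiv i F)

/-- The third point of intersection of `F = 0` and the line through two of its points `x` and `p`:
`F(a x + b p) = a b (a · polar F p x + b · polar F x p)` vanishes for `a = polar F x p` and
`b = -polar F p x`. -/
noncomputable def thirdPoint {n : ℕ} {M : Type} [Field M] [Algebra ℂ M]
    (F : MvPolynomial (Fin (n + 2)) ℂ) (x p : Fin (n + 2) → M) : Fin (n + 2) → M :=
  fun i => polar F x p * x i - polar F p x * p i

/-- The parity law: if `p` moves in a curve and `x` is an odd point then `polar F x p ≠ 0`, and if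
`polar F x p ≠ 0` then `x` is odd if and only if the third point is odd. -/
def ParityLaw {n : ℕ} (F : MvPolynomial (Fin (n + 2)) ℂ) : Prop :=
  ∀ (M : Type) [Field M] [Algebra ℂ M] (x p : Fin (n + 2) → M), MovesInCurve F p →
    (OddPoint F x → polar F x p ≠ 0) ∧
    (polar F x p ≠ 0 → (OddPoint F x ↔ OddPoint F (thirdPoint F x p)))

/-- `w` is a rational curve of degree at most `e` on `F = 0` over `M`: a tuple of polynomials of
degree at most `e` without common factor at which `F` vanishes -/
def IsRationalCurve {n : ℕ} {M : Type} [Field M] [Algebra ℂ M] (F : MvPolynomial (Fin (n + 2)) ℂ)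
    (e : ℕ) (w : Fin (n + 2) → Polynomial M) : Prop :=
  aeval w F = 0 ∧ (∀ i, (w i).natDegree ≤ e) ∧
    ∀ q : Polynomial M, Irreducible q → ∃ i, ¬ q ∣ w i

/-- the curve `w` passes through the point `x` -/
def PassesThrough {n : ℕ} {M : Type} [Field M] (w : Fin (n + 2) → Polynomial M)
    (x : Fin (n + 2) → M) : Prop :=
  ∃ a s : M, s ≠ 0 ∧ ∀ i, (w i).eval a = s * x i

/-- the curve `w` meets the point `p` with multiplicity at least `m`: the polynomials
`w_i p_j - w_j p_i` have a common divisor of degree `m` -/
def Meets {n : ℕ} {M : Type} [Field M] (w : Fin (n + 2) → Polynomial M) (p : Fin (n + 2) → M)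
    (m : ℕ) : Prop :=
  ∃ g : Polynomial M, g ≠ 0 ∧ g.natDegree = m ∧
    ∀ i j, g ∣ w i * Polynomial.C (p j) - w j * Polynomial.C (p i)

/-- A rational curve of degree at most `e` through an odd point `x` meets a point `p` which moves in
a curve with multiplicity `m ≤ (2 e - 2) / 3`, unless it is constant (equal to the point `x`). -/
def CurveLaw {n : ℕ} (F : MvPolynomial (Fin (n + 2)) ℂ) : Prop :=
  ∀ (M : Type) [Field M] [Algebra ℂ M] (x p : Fin (n + 2) → M), OddPoint F x →
    MovesInCurve F p → ∀ (e m : ℕ) (w : Fin (n + 2) → Polynomial M), IsRationalCurve F e w →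
    PassesThrough w x → Meets w p m →
    3 * m + 2 ≤ 2 * e ∨ ∀ i j, w i * Polynomial.C (x j) = w j * Polynomial.C (x i)

/-- the values of the polynomials `G_i` over `κ` at the point `t` over an extension field `M` -/
noncomputable def value {n N : ℕ} {κ M : Type} [Field κ] [Field M] [Algebra κ M]
    (G : Fin (n + 2) → MvPolynomial (Fin N) κ) (t : Fin N → M) : Fin (n + 2) → M :=
  fun i => aeval t (G i)

/-- Let `κ` be a field of transcendence degree at most one. Polynomials `G_i` of degree at most two
over `κ` which give a rational map to `F = 0` give no odd points of `F = 0` (over any extension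
field `M` of `κ`, for any values `t` of the variables). -/
def QuadraticLaw {n : ℕ} (F : MvPolynomial (Fin (n + 2)) ℂ) : Prop :=
  ∀ (κ M : Type) [Field κ] [Field M] [Algebra ℂ κ] [Algebra κ M] [Algebra ℂ M]
    [IsScalarTower ℂ κ M], Algebra.trdeg ℂ κ ≤ 1 →
    ∀ (N : ℕ) (G : Fin (n + 2) → MvPolynomial (Fin N) κ), aeval G F = 0 →
    (∀ i, (G i).totalDegree ≤ 2) → ∀ t : Fin N → M, ¬ OddPoint F (value G t)

/-- The constant coefficients `p_i` of the polynomials `G_i` are not all zero, and all monomials of
the polynomials `p_j G_i - p_i G_j` are of degree at least `m`. -/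
def HasContact {n N : ℕ} {κ : Type} [Field κ] (G : Fin (n + 2) → MvPolynomial (Fin N) κ)
    (m : ℕ) : Prop :=
  (∃ i, constantCoeff (G i) ≠ 0) ∧ ∀ i j, ∀ α : Fin N →₀ ℕ, α.degree < m →
    coeff α (C (constantCoeff (G j)) * G i - C (constantCoeff (G i)) * G j) = 0

/-- The same for polynomials `G_i` of degree at most `e` which have contact of order `m` with a
constant map, where `2 e ≤ 3 m + 1`. -/
def ContactLaw {n : ℕ} (F : MvPolynomial (Fin (n + 2)) ℂ) : Prop :=
  ∀ (κ M : Type) [Field κ] [Field M] [Algebra ℂ κ] [Algebra κ M] [Algebra ℂ M]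
    [IsScalarTower ℂ κ M], Algebra.trdeg ℂ κ ≤ 1 →
    ∀ (N : ℕ) (G : Fin (n + 2) → MvPolynomial (Fin N) κ), aeval G F = 0 →
    ∀ e m : ℕ, 2 * e ≤ 3 * m + 1 → (∀ i, (G i).totalDegree ≤ e) → HasContact G m →
    ∀ t : Fin N → M, ¬ OddPoint F (value G t)

/-- The tuple `G` of polynomials gives a dominant rational map to the hypersurface `F = 0`: `F`
vanishes at `G`, and every form vanishing at `G` is divisible by `F`. -/
def Dominant {n : ℕ} (F : MvPolynomial (Fin (n + 2)) ℂ)
    (G : Fin (n + 2) → MvPolynomial (Fin n) ℂ) : Prop :=
  aeval G F = 0 ∧ ∀ (e : ℕ) (H : MvPolynomial (Fin (n + 2)) ℂ), H.IsHomogeneous e →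
    aeval G H = 0 → F ∣ H

/-- the degree of the map given by `G`: the degree of `ℂ(t_1, …, t_n)` over its subfield generated
over `ℂ` by all ratios `G_i / G_j` -/
noncomputable def mapDegree {n : ℕ} (G : Fin (n + 2) → MvPolynomial (Fin n) ℂ) : ℕ :=
  Module.finrank (ratioField fun i => algebraMap (MvPolynomial (Fin n) ℂ)
    (FractionRing (MvPolynomial (Fin n) ℂ)) (G i)) (FractionRing (MvPolynomial (Fin n) ℂ))

/-- Polynomials in `n` variables which are of degree at most two in the variables `t_l`, `l ≠ j`, and
which give a dominant rational map to `F = 0` give a map of positive even degree. -/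
def MapLaw {n : ℕ} (F : MvPolynomial (Fin (n + 2)) ℂ) : Prop :=
  ∀ (G : Fin (n + 2) → MvPolynomial (Fin n) ℂ) (j : Fin n),
    (∀ i, ∀ α ∈ (G i).support, ∑ l ∈ Finset.univ.erase j, α l ≤ 2) → Dominant F G →
    0 < mapDegree G ∧ Even (mapDegree G)

/-- the coordinate ring of the cone over `F = 0` over an extension field `K` of `ℂ` -/
abbrev ConeRing {n : ℕ} (F : MvPolynomial (Fin (n + 2)) ℂ) (K : Type) [Field K] [Algebra ℂ K] :
    Type :=
  MvPolynomial (Fin (n + 2)) K ⧸ Ideal.span {map (algebraMap ℂ K) F}

/-- the cone over `F = 0` is factorial over all extension fields of the complex numbers -/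
def FactorialCones {n : ℕ} (F : MvPolynomial (Fin (n + 2)) ℂ) : Prop :=
  ∀ (K : Type) [Field K] [Algebra ℂ K],
    ∃ _ : IsDomain (ConeRing F K), UniqueFactorizationMonoid (ConeRing F K)

/-- the cubic form `Y_0 U_0² + Y_1 U_1² + Y_0³ + … + Y_{m+2}³` in the `m + 5` variables
`U_0, U_1, Y_0, …, Y_{m+2}` -/
noncomputable def specialCubic (m : ℕ) : MvPolynomial (Fin (m + 3 + 2)) ℂ :=
  X 2 * X 0 ^ 2 + X 3 * X 1 ^ 2 + ∑ j : Fin (m + 3), X j.succ.succ ^ 3

/-- all the laws -/
def Laws {n : ℕ} (F : MvPolynomial (Fin (n + 2)) ℂ) : Prop :=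
  ParityLaw F ∧ CurveLaw F ∧ QuadraticLaw F ∧ ContactLaw F ∧ MapLaw F

theorem laws {n : ℕ} {F : MvPolynomial (Fin (n + 2)) ℂ} (hF : SmoothCubic F)
    (hlaw : Pool.Agent.Helper93K9.PAR.Law F) : Laws F := by
  have hrcs := Pool.Agent.Helper93K9.PAR.h_rc _ F hF.1 hF.2 hlaw
  have hcm2 := Pool.Agent.Helper93K9.PAR.cm2
  have hcm3 := Pool.Agent.Helper93K9.PAR.cm3 hcm2
  have hcm4 := Pool.Agent.Helper93K9.PAR.cm4 hcm3
  refine ⟨?_, ?_, ?_, ?_, ?_⟩
  · intro M _ _ x p hp
    have hcrv := Pool.Agent.Helper93K9.PAR.crv_of_trdeg p hp.2.2
    exact ⟨fun hx => (hlaw M x p hx.1 hx.2 hp.1 hp.2.1 hcrv).1,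
      fun hpol => Pool.Agent.Helper93K9.PAR.law_iff hF.1 hlaw hp.1 hp.2.1 hcrv hpol⟩
  · rintro M _ _ x p hx hp e d w ⟨hw, hdeg, hprim⟩ ⟨a, s, hs, ha⟩ ⟨g, hg, hgd, hdvd⟩
    by_cases he : 3 * d + 2 ≤ 2 * e
    · exact Or.inl he
    · exact Or.inr (hrcs M x p hx.1 hx.2 hp.1 hp.2.1
        (Pool.Agent.Helper93K9.PAR.crv_of_trdeg p hp.2.2) e w a s g hw hdeg hprim hs ha hg hdvd
        (by rw [hgd]; omega))
  · rintro κ M _ _ _ _ _ _ hκ N G hG hdeg t ⟨h4, h5⟩
    exact hcm3 _ F (by omega) hF.1 hlaw hrcs κ M N G t
      (Pool.Agent.Helper93K9.PAR.pair_of_trdeg hκ) hG hdeg h4 h5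
  · rintro κ M _ _ _ _ _ _ hκ N G hG e d he hdeg ⟨hc, hcon⟩ t ⟨h4, h5⟩
    exact hcm2 _ F hF.1 hlaw hrcs κ M N G t e d
      (Pool.Agent.Helper93K9.PAR.pair_of_trdeg hκ) hG hdeg he hc hcon h4 h5
  · intro G j hG hdom
    have hal : ∀ P : MvPolynomial (Fin n) ℂ,
        aeval (fun l => algebraMap (MvPolynomial (Fin n) ℂ)
          (FractionRing (MvPolynomial (Fin n) ℂ)) (X l)) P =
        algebraMap (MvPolynomial (Fin n) ℂ) (FractionRing (MvPolynomial (Fin n) ℂ)) P := by
      intro P
      have h4 := comp_aeval_apply (φ := IsScalarTower.toAlgHom ℂ (MvPolynomial (Fin n) ℂ)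
        (FractionRing (MvPolynomial (Fin n) ℂ))) X P
      rw [aeval_X_left_apply] at h4
      exact h4.symm
    have hFH : ∀ H : MvPolynomial (Fin (n + 2)) ℂ,
        aeval (fun i => algebraMap (MvPolynomial (Fin n) ℂ)
          (FractionRing (MvPolynomial (Fin n) ℂ)) (G i)) H =
        algebraMap (MvPolynomial (Fin n) ℂ)
          (FractionRing (MvPolynomial (Fin n) ℂ)) (aeval G H) := fun H =>
      (comp_aeval_apply (φ := IsScalarTower.toAlgHom ℂ (MvPolynomial (Fin n) ℂ)
        (FractionRing (MvPolynomial (Fin n) ℂ))) G H).symm
    have hgen : Pool.Agent.Helper93K9.PAR.Gen F fun i => aeval (fun l =>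
        algebraMap (MvPolynomial (Fin n) ℂ)
          (FractionRing (MvPolynomial (Fin n) ℂ)) (X l)) (G i) := by
      simp only [hal]
      refine ⟨by rw [hFH, hdom.1, map_zero], fun e H hH h0 => hdom.2 e H hH ?_⟩
      rw [hFH] at h0
      exact (IsFractionRing.injective (MvPolynomial (Fin n) ℂ)
        (FractionRing (MvPolynomial (Fin n) ℂ))) (h0.trans (map_zero _).symm)
    have hodd := hcm4 _ F (by omega) hF.1 hlaw hrcs
      (FractionRing (MvPolynomial (Fin n) ℂ)) n G (fun l =>
        algebraMap (MvPolynomial (Fin n) ℂ)
          (FractionRing (MvPolynomial (Fin n) ℂ)) (X l)) j hdom.1 hG hgen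
    rw [funext fun i => hal (G i)] at hodd
    refine ⟨?_, Nat.not_odd_iff_even.1 hodd⟩
    have hfin := (Pool.Agent.TH314.PD.bound (k := Finset.univ.sup fun i => (G i).totalDegree)
      (by norm_num) F hF.1 hF.2 G (fun i => Finset.le_sup (f := fun i => (G i).totalDegree)
      (Finset.mem_univ i)) hdom.1 hdom.2).1
    have hfin' : FiniteDimensional (ratioField fun i => algebraMap (MvPolynomial (Fin n) ℂ)
      (FractionRing (MvPolynomial (Fin n) ℂ)) (G i))
      (FractionRing (MvPolynomial (Fin n) ℂ)) := hfin
    exact Module.finrank_pos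

/-- There is a countable set of nonzero polynomials in the coefficients of a cubic form in `n + 2`
variables such that the property `P` holds for every smooth cubic hypersurface `F = 0` outside their
zero sets. -/
def ForVeryGeneral (n : ℕ) (P : MvPolynomial (Fin (n + 2)) ℂ → Prop) : Prop :=
  ∃ Ps : Set (MvPolynomial {m : Fin (n + 2) →₀ ℕ // m.degree = 3} ℂ), Ps.Countable ∧
    (0 : MvPolynomial {m : Fin (n + 2) →₀ ℕ // m.degree = 3} ℂ) ∉ Ps ∧
    ∀ F : MvPolynomial (Fin (n + 2)) ℂ, SmoothCubic F → (∀ Q ∈ Ps, eval (coeffs F) Q ≠ 0) → P F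

/-- (1) All the laws (the parity law, the law for rational curves, and the laws for quadratic
polynomials, for polynomials which have contact with a constant, and for dominant maps from the affine
space) hold for every smooth cubic hypersurface whose cones are factorial. (2) For every `n ≥ 3`
they hold for the very general cubic hypersurface of dimension `n`. (3) They hold for the special
cubic hypersurfaces, and these are smooth. -/
theorem result :
    (∀ (n : ℕ) (F : MvPolynomial (Fin (n + 2)) ℂ), SmoothCubic F → FactorialCones F → Laws F) ∧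
    (∀ n : ℕ, 3 ≤ n → ForVeryGeneral n Laws) ∧
    ∀ m : ℕ, SmoothCubic (specialCubic m) ∧ Laws (specialCubic m) := by
  refine ⟨fun n F hF hfac => laws hF
    (Pool.Agent.Helper93K9.PAR.law_factorial hF.1 hF.2 hfac), fun n hn => ?_, fun m => ?_⟩
  · obtain ⟨Ps, h1, h2, h3⟩ := Pool.Agent.R845.VG.very_general (n + 2) 3
    refine ⟨Ps, h1, h2, fun F hF hP => ?_⟩
    obtain ⟨m, rfl⟩ : ∃ m, n = m + 3 := ⟨n - 3, by omega⟩
    exact laws hF (Pool.Agent.Helper93K9.PAR.law_ind m hF.1 (h3 F hP))
  · have hF : SmoothCubic (specialCubic m) :=
      ⟨Pool.Agent.Helper93K9.PAR.F0_hom m ℂ, fun z hz =>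
        Pool.Agent.Helper93K9.PAR.F0_smooth m ℂ ℂ z fun i => by
          rw [aeval_eq_eval]
          exact hz i⟩
    exact ⟨hF, laws hF (Pool.Agent.Helper93K9.PAR.law_special m)⟩

end Pool.Agent.Results.MP_2619d0_ag.ParityAlongCurves
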